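import Pool.Agent.Q294.SR.Stm

/-!
Project SR (helper294), job TURN: Hopf's formula for the lattice walks on the corners.
-/

set_option autoImplicit false

namespace Pool.Agent.Q65.SR

open H974 Pool.Agent.Q294.SR Pool.Agent.H477R3.Turn Complex

/-- integer coordinates of the positions -/
def ip : St → ℤ × ℤ
  | (v, .se) => (2 * v.1 + 1, 2 * v.2)
  | (v, .ne) => (2 * v.1 + 1, 2 * v.2 + 1)
  | (v, .nw) => (2 * v.1, 2 * v.2 + 1)
  | (v, .sw) => (2 * v.1, 2 * v.2)

/-- the point with integer coordinates -/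
noncomputable def cc (a : ℤ × ℤ) : ℂ := ⟨(a.1 : ℝ), (a.2 : ℝ)⟩

theorem pos_eq (s : St) : pos s = cc (ip s) := by
  obtain ⟨⟨x, y⟩, c⟩ := s
  cases c <;> simp [pos, ip, cc]

theorem ip_inj {s s' : St} (h : ip s = ip s') : s = s' := by
  obtain ⟨⟨x, y⟩, c⟩ := s
  obtain ⟨⟨x', y'⟩, c'⟩ := s'
  cases c <;> cases c' <;> simp only [ip, Prod.mk.injEq] at h <;> first | omega | skip
  all_goals
    obtain ⟨h1, h2⟩ := h
    have h3 : x = x' := by omega
    have h4 : y = y' := by omega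
    rw [h3, h4]

/-- neighbours -/
def Adj (a b : ℤ × ℤ) : Prop :=
  b = (a.1 + 1, a.2) ∨ a = (b.1 + 1, b.2) ∨ b = (a.1, a.2 + 1) ∨ a = (b.1, b.2 + 1)

/-- a step of a walk -/
def Stp (s s' : St) (e : ℤ) : Prop := (s' = stc s ∧ e = 1) ∨ (s' = sto s ∧ e = -1)

theorem adj_of {s s' : St} {e : ℤ} (h : Stp s s' e) : Adj (ip s) (ip s') := by
  obtain ⟨⟨x, y⟩, c⟩ := s
  rcases h with ⟨rfl, -⟩ | ⟨rfl, -⟩
  · cases c
    · exact Or.inr (Or.inr (Or.inl rfl))
    · exact Or.inr (Or.inl rfl)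
    · exact Or.inr (Or.inr (Or.inr rfl))
    · exact Or.inl rfl
  · cases c
    · refine Or.inl ?_
      simp only [ip, sto, mv, Cor.dn, Prod.mk.injEq, and_true]
      omega
    · refine Or.inr (Or.inr (Or.inl ?_))
      simp only [ip, sto, mv, Cor.dn, Prod.mk.injEq, true_and]
      omega
    · refine Or.inr (Or.inl ?_)
      simp only [ip, sto, mv, Cor.dn, Prod.mk.injEq, and_true]
      omega
    · refine Or.inr (Or.inr (Or.inr ?_))
      simp only [ip, sto, mv, Cor.dn, Prod.mk.injEq, true_and]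
      omega

theorem out_eq {s s' : St} {e : ℤ} (h : Stp s s' e) :
    pos s' - pos s = dg s.2 * ⟨1 / 2, (e : ℝ) / 2⟩ := by
  obtain ⟨⟨x, y⟩, c⟩ := s
  rcases h with ⟨rfl, rfl⟩ | ⟨rfl, rfl⟩
  · cases c <;> apply Complex.ext <;> simp [pos, dg, stc, Cor.up] <;> ring
  · cases c <;> apply Complex.ext <;> simp [pos, dg, sto, mv, Cor.dn] <;> ring

theorem in_eq {s s' : St} {e : ℤ} (h : Stp s s' e) :
    pos s' - pos s = dg s'.2 * ⟨1 / 2, -(e : ℝ) / 2⟩ := by
  obtain ⟨⟨x, y⟩, c⟩ := s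
  rcases h with ⟨rfl, rfl⟩ | ⟨rfl, rfl⟩
  · cases c <;> apply Complex.ext <;> simp [pos, dg, stc, Cor.up] <;> ring
  · cases c <;> apply Complex.ext <;> simp [pos, dg, sto, mv, Cor.dn] <;> ring

theorem dg_sq (c : Cor) : ((dg c).re = 1 ∨ (dg c).re = -1) ∧ ((dg c).im = 1 ∨ (dg c).im = -1) := by
  cases c <;> simp [dg]

theorem dg_ne (c : Cor) : dg c ≠ 0 := by
  intro h
  rcases (dg_sq c).1 with h1 | h1 <;> rw [h] at h1 <;> norm_num at h1

/-! ### arguments -/

theorem arg_q {r : ℝ} (hr : 0 < r) {e : ℤ} (he : e = 1 ∨ e = -1) :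
    arg ⟨r, (e : ℝ) * r⟩ = Real.pi / 4 * e := by
  have h2 : (0 : ℝ) < Real.sqrt 2 := Real.sqrt_pos.2 (by norm_num)
  have h3 : Real.sqrt 2 * Real.sqrt 2 = 2 := Real.mul_self_sqrt (by norm_num)
  have hpi := Real.pi_pos
  have key : (⟨r, (e : ℝ) * r⟩ : ℂ) = ((r * Real.sqrt 2 : ℝ) : ℂ) *
      (Complex.cos ((Real.pi / 4 * e : ℝ) : ℂ) + Complex.sin ((Real.pi / 4 * e : ℝ) : ℂ) * I) := by
    rw [← Complex.ofReal_cos, ← Complex.ofReal_sin]
    have hc : Real.cos (Real.pi / 4 * e) = Real.sqrt 2 / 2 := by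
      rcases he with rfl | rfl
      · rw [Int.cast_one, mul_one, Real.cos_pi_div_four]
      · rw [Int.cast_neg, Int.cast_one, mul_neg, mul_one, Real.cos_neg, Real.cos_pi_div_four]
    have hs : Real.sin (Real.pi / 4 * e) = e * (Real.sqrt 2 / 2) := by
      rcases he with rfl | rfl
      · rw [Int.cast_one, mul_one, one_mul, Real.sin_pi_div_four]
      · rw [Int.cast_neg, Int.cast_one, mul_neg, mul_one, Real.sin_neg, Real.sin_pi_div_four]
        ring
    rw [hc, hs]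
    apply Complex.ext
    · simp
      linear_combination (-(r / 2)) * h3
    · simp
      linear_combination (-(e * r / 2)) * h3
  rw [key, Complex.arg_mul_cos_add_sin_mul_I (mul_pos hr h2)]
  rcases he with rfl | rfl
  · constructor <;> push_cast <;> linarith
  · constructor <;> push_cast <;> linarith

theorem stp_e {s s' : St} {e : ℤ} (h : Stp s s' e) : e = 1 ∨ e = -1 := by
  rcases h with ⟨-, h⟩ | ⟨-, h⟩
  · exact Or.inl h
  · exact Or.inr h

theorem turn_first {s s' : St} {e : ℤ} (h : Stp s s' e) :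
    turn (pos s - (1 / 8 : ℝ) * dg s.2) (pos s) (pos s') = Real.pi / 4 * e := by
  unfold turn
  rw [out_eq h, sub_sub_cancel]
  have h1 : dg s.2 * ⟨1 / 2, (e : ℝ) / 2⟩ / (((1 / 8 : ℝ) : ℂ) * dg s.2) =
      ⟨4, (e : ℝ) * 4⟩ := by
    rw [div_eq_iff (mul_ne_zero (by norm_num) (dg_ne _))]
    apply Complex.ext <;> simp <;> ring
  rw [h1]
  exact arg_q (by norm_num) (stp_e h)

theorem turn_last {s s' : St} {e : ℤ} (h : Stp s s' e) :
    turn (pos s) (pos s') (pos s' + (1 / 4 : ℝ) * dg s'.2) = Real.pi / 4 * e := by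
  unfold turn
  rw [in_eq h, add_sub_cancel_left]
  have h0 : (⟨1 / 2, -(e : ℝ) / 2⟩ : ℂ) ≠ 0 := by
    intro h
    have := congrArg Complex.re h
    norm_num at this
  have h1 : ((1 / 4 : ℝ) : ℂ) * dg s'.2 / (dg s'.2 * ⟨1 / 2, -(e : ℝ) / 2⟩) =
      ⟨1 / 4, (e : ℝ) * (1 / 4)⟩ := by
    rw [div_eq_iff (mul_ne_zero (dg_ne _) h0)]
    rcases stp_e h with rfl | rfl <;> apply Complex.ext <;> simp <;> ring
  rw [h1]
  exact arg_q (by norm_num) (stp_e h)

theorem turn_mid {s s' s'' : St} {e e' : ℤ} (h : Stp s s' e) (h' : Stp s' s'' e') :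
    turn (pos s) (pos s') (pos s'') = Real.pi / 4 * (e + e') := by
  unfold turn
  rw [in_eq h, out_eq h', mul_div_mul_left _ _ (dg_ne _)]
  have h0 : (⟨1 / 2, -(e : ℝ) / 2⟩ : ℂ) ≠ 0 := by
    intro h
    have := congrArg Complex.re h
    norm_num at this
  rcases stp_e h with rfl | rfl <;> rcases stp_e h' with rfl | rfl
  · have h1 : (⟨1 / 2, ((1 : ℤ) : ℝ) / 2⟩ : ℂ) / ⟨1 / 2, -((1 : ℤ) : ℝ) / 2⟩ = I := by
      rw [div_eq_iff h0]
      apply Complex.ext <;> simp
      ring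
    rw [h1, Complex.arg_I]
    push_cast
    ring
  · have h1 : (⟨1 / 2, ((-1 : ℤ) : ℝ) / 2⟩ : ℂ) / ⟨1 / 2, -((1 : ℤ) : ℝ) / 2⟩ = 1 := by
      rw [div_eq_iff h0]
      apply Complex.ext <;> simp
    rw [h1, Complex.arg_one]
    push_cast
    ring
  · have h1 : (⟨1 / 2, ((1 : ℤ) : ℝ) / 2⟩ : ℂ) / ⟨1 / 2, -((-1 : ℤ) : ℝ) / 2⟩ = 1 := by
      rw [div_eq_iff h0]
      apply Complex.ext <;> simp
    rw [h1, Complex.arg_one]
    push_cast
    ring
  · have h1 : (⟨1 / 2, ((-1 : ℤ) : ℝ) / 2⟩ : ℂ) / ⟨1 / 2, -((-1 : ℤ) : ℝ) / 2⟩ = -I := by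
      rw [div_eq_iff h0]
      apply Complex.ext <;> simp
      ring
    rw [h1, Complex.arg_neg_I]
    push_cast
    ring

/-! ### disjointness -/

theorem mem_seg {x p q : ℂ} (h : x ∈ segment ℝ p q) : ∃ t : ℝ, 0 ≤ t ∧ t ≤ 1 ∧
    x.re = p.re + t * (q.re - p.re) ∧ x.im = p.im + t * (q.im - p.im) := by
  rw [segment_eq_image'] at h
  obtain ⟨t, ht, rfl⟩ := h
  refine ⟨t, ht.1, ht.2, ?_, ?_⟩
  · simp
  · simp

theorem fl_or {r : ℝ} {m : ℤ} (h1 : (m : ℝ) ≤ r) (h2 : r ≤ m + 1) : ⌊r⌋ = m ∨ ⌊r⌋ = m + 1 := by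
  rcases h2.eq_or_lt with h | h
  · right
    rw [Int.floor_eq_iff]
    push_cast
    constructor <;> linarith
  · left
    rw [Int.floor_eq_iff]
    exact ⟨h1, h⟩

/-- a point of a unit segment of the lattice -/
theorem seg_fl {a b : ℤ × ℤ} (h : Adj a b) {x : ℂ} (hx : x ∈ segment ℝ (cc a) (cc b)) :
    ((⌊x.re⌋, ⌊x.im⌋) = a ∨ (⌊x.re⌋, ⌊x.im⌋) = b) ∧
      ((⌊x.re⌋ : ℝ) = x.re ∨ (⌊x.im⌋ : ℝ) = x.im) := by
  obtain ⟨t, h0, h1, hr, hi⟩ := mem_seg hx
  obtain ⟨a1, a2⟩ := a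
  obtain ⟨b1, b2⟩ := b
  simp only [Adj, cc, Prod.mk.injEq] at h hr hi ⊢
  rcases h with ⟨rfl, rfl⟩ | ⟨rfl, rfl⟩ | ⟨rfl, rfl⟩ | ⟨rfl, rfl⟩
  · have hi' : x.im = (b2 : ℝ) := by rw [hi]; ring
    have hf : ⌊x.im⌋ = b2 := by rw [hi', Int.floor_intCast]
    have h2 := fl_or (r := x.re) (m := a1) (by rw [hr]; push_cast; nlinarith)
      (by rw [hr]; push_cast; nlinarith)
    refine ⟨?_, Or.inr (by rw [hf, hi'])⟩
    rcases h2 with h2 | h2
    · exact Or.inl ⟨h2, hf⟩
    · exact Or.inr ⟨h2, hf⟩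
  · have hi' : x.im = (a2 : ℝ) := by rw [hi]; ring
    have hf : ⌊x.im⌋ = a2 := by rw [hi', Int.floor_intCast]
    have h2 := fl_or (r := x.re) (m := b1) (by rw [hr]; push_cast; nlinarith)
      (by rw [hr]; push_cast; nlinarith)
    refine ⟨?_, Or.inr (by rw [hf, hi'])⟩
    rcases h2 with h2 | h2
    · exact Or.inr ⟨h2, hf⟩
    · exact Or.inl ⟨h2, hf⟩
  · have hi' : x.re = (b1 : ℝ) := by rw [hr]; ring
    have hf : ⌊x.re⌋ = b1 := by rw [hi', Int.floor_intCast]
    have h2 := fl_or (r := x.im) (m := a2) (by rw [hi]; push_cast; nlinarith)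
      (by rw [hi]; push_cast; nlinarith)
    refine ⟨?_, Or.inl (by rw [hf, hi'])⟩
    rcases h2 with h2 | h2
    · exact Or.inl ⟨hf, h2⟩
    · exact Or.inr ⟨hf, h2⟩
  · have hi' : x.re = (a1 : ℝ) := by rw [hr]; ring
    have hf : ⌊x.re⌋ = a1 := by rw [hi', Int.floor_intCast]
    have h2 := fl_or (r := x.im) (m := b2) (by rw [hi]; push_cast; nlinarith)
      (by rw [hi]; push_cast; nlinarith)
    refine ⟨?_, Or.inl (by rw [hf, hi'])⟩
    rcases h2 with h2 | h2
    · exact Or.inr ⟨hf, h2⟩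
    · exact Or.inl ⟨hf, h2⟩

theorem seg_seg {a b a' b' : ℤ × ℤ} (h : Adj a b) (h' : Adj a' b') (h1 : a ≠ a') (h2 : a ≠ b')
    (h3 : b ≠ a') (h4 : b ≠ b') : Disjoint (segment ℝ (cc a) (cc b)) (segment ℝ (cc a') (cc b')) := by
  rw [Set.disjoint_left]
  intro x hx hx'
  rcases (seg_fl h hx).1 with h5 | h5 <;> rcases (seg_fl h' hx').1 with h6 | h6
  · exact h1 (h5.symm.trans h6)
  · exact h2 (h5.symm.trans h6)
  · exact h3 (h5.symm.trans h6)
  · exact h4 (h5.symm.trans h6)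

/-- an integer near an integer -/
theorem int_near {m k : ℤ} {r : ℝ} (hr : |r| < 1) (h : (k : ℝ) = m + r) : k = m := by
  have h1 : |((k - m : ℤ) : ℝ)| < 1 := by
    push_cast
    rw [h, add_sub_cancel_left]
    exact hr
  have h2 : |k - m| < 1 := by exact_mod_cast h1
  rw [Int.abs_lt_one_iff] at h2
  omega

/-- points of the diagonal pieces -/
theorem mem_diag {a : ℤ × ℤ} {c : Cor} {r : ℝ} {x : ℂ}
    (hx : x ∈ segment ℝ (cc a) (cc a + (r : ℂ) * dg c)) : ∃ t : ℝ, 0 ≤ t ∧ t ≤ 1 ∧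
      x.re = a.1 + t * r * (dg c).re ∧ x.im = a.2 + t * r * (dg c).im := by
  obtain ⟨t, h0, h1, hr, hi⟩ := mem_seg hx
  refine ⟨t, h0, h1, ?_, ?_⟩
  · rw [hr]
    simp [cc]
    ring
  · rw [hi]
    simp [cc]
    ring

theorem diag_seg {a a' b' : ℤ × ℤ} {c : Cor} {r : ℝ} (hr : |r| < 1) (h' : Adj a' b')
    (h1 : a ≠ a') (h2 : a ≠ b') :
    Disjoint (segment ℝ (cc a) (cc a + (r : ℂ) * dg c)) (segment ℝ (cc a') (cc b')) := by
  rw [Set.disjoint_left]
  intro x hx hx'
  obtain ⟨t, h0, h01, hre, him⟩ := mem_diag hx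
  obtain ⟨h3, h4⟩ := seg_fl h' hx'
  have htr : |t * r| < 1 := by
    rw [abs_mul, abs_of_nonneg h0]
    calc t * |r| ≤ 1 * |r| := mul_le_mul_of_nonneg_right h01 (abs_nonneg _)
      _ < 1 := by rw [one_mul]; exact hr
  have hdr : |t * r * (dg c).re| < 1 := by
    rcases (dg_sq c).1 with h | h <;> rw [h]
    · rw [mul_one]; exact htr
    · rw [mul_neg, mul_one, abs_neg]; exact htr
  have hdi : |t * r * (dg c).im| < 1 := by
    rcases (dg_sq c).2 with h | h <;> rw [h]
    · rw [mul_one]; exact htr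
    · rw [mul_neg, mul_one, abs_neg]; exact htr
  have hz : t * r = 0 := by
    rcases h4 with h4 | h4
    · rw [hre] at h4
      have h5 := int_near hdr h4
      rw [h5] at h4
      have h6 : t * r * (dg c).re = 0 := by linarith
      rcases (dg_sq c).1 with h | h <;> rw [h] at h6 <;> linarith
    · rw [him] at h4
      have h5 := int_near hdi h4
      rw [h5] at h4
      have h6 : t * r * (dg c).im = 0 := by linarith
      rcases (dg_sq c).2 with h | h <;> rw [h] at h6 <;> linarith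
  rw [hz, zero_mul, add_zero] at hre him
  have h5 : (⌊x.re⌋, ⌊x.im⌋) = a := by
    rw [hre, him, Int.floor_intCast, Int.floor_intCast]
  rw [h5] at h3
  rcases h3 with h3 | h3
  · exact h1 h3
  · exact h2 h3

theorem diag_diag {a a' : ℤ × ℤ} {c c' : Cor} {r r' : ℝ} (hr : |r| + |r'| < 1) (h1 : a ≠ a') :
    Disjoint (segment ℝ (cc a) (cc a + (r : ℂ) * dg c))
      (segment ℝ (cc a') (cc a' + (r' : ℂ) * dg c')) := by
  rw [Set.disjoint_left]
  intro x hx hx'
  obtain ⟨t, h0, h01, hre, him⟩ := mem_diag hx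
  obtain ⟨t', h0', h01', hre', him'⟩ := mem_diag hx'
  have htr : |t * r| ≤ |r| := by
    rw [abs_mul, abs_of_nonneg h0]
    exact mul_le_of_le_one_left (abs_nonneg _) h01
  have htr' : |t' * r'| ≤ |r'| := by
    rw [abs_mul, abs_of_nonneg h0']
    exact mul_le_of_le_one_left (abs_nonneg _) h01'
  have hb : ∀ z w : ℝ, (z = 1 ∨ z = -1) → (w = 1 ∨ w = -1) →
      |t' * r' * z - t * r * w| < 1 := by
    intro z w hz hw
    have e1 : |t' * r' * z| = |t' * r'| := by
      rcases hz with rfl | rfl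
      · rw [mul_one]
      · rw [mul_neg, mul_one, abs_neg]
    have e2 : |t * r * w| = |t * r| := by
      rcases hw with rfl | rfl
      · rw [mul_one]
      · rw [mul_neg, mul_one, abs_neg]
    have := abs_sub (t' * r' * z) (t * r * w)
    rw [e1, e2] at this
    linarith
  have e1 : a.1 = a'.1 := int_near (hb _ _ (dg_sq c').1 (dg_sq c).1) (by linarith)
  have e2 : a.2 = a'.2 := int_near (hb _ _ (dg_sq c').2 (dg_sq c).2) (by linarith)
  exact h1 (Prod.ext e1 e2)

theorem turn_core (g : ℕ → St) (e : ℕ → ℤ) (n : ℕ) (hn : 1 ≤ n) (hW : Walk g e n) :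
    Real.pi / 2 * ((∑ j ∈ Finset.range n, e j : ℤ) : ℝ) =
      sweep (poly g n 0) (poly g n) 1 (n + 2) + sweep (poly g n (n + 2)) (poly g n) 0 (n + 1) := by
  obtain ⟨hinj, hst⟩ := hW
  have hstp : ∀ j, j < n → Stp (g j) (g (j + 1)) (e j) := hst
  have y0 : poly g n 0 = pos (g 0) - (1 / 8 : ℝ) * dg (g 0).2 := by
    unfold poly
    rw [if_pos rfl]
  have yl : poly g n (n + 2) = pos (g n) + (1 / 4 : ℝ) * dg (g n).2 := by
    unfold poly
    rw [if_neg (by omega), if_pos rfl]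
  have ym : ∀ k, k ≤ n → poly g n (k + 1) = pos (g k) := by
    intro k hk
    unfold poly
    rw [if_neg (by omega), if_neg (by omega), Nat.add_sub_cancel]
  generalize poly g n = y at y0 yl ym ⊢
  have hip : ∀ i j, i ≤ n → j ≤ n → i ≠ j → ip (g i) ≠ ip (g j) :=
    fun i j hi hj hij h => hij (hinj i j hi hj (ip_inj h))
  have hpi := Real.pi_pos
  -- the turns
  have ht : ∀ k, k < n + 1 → turn (y k) (y (k + 1)) (y (k + 2)) =
      Real.pi / 4 * ((if k = 0 then 0 else (e (k - 1) : ℝ)) + (if k = n then 0 else (e k : ℝ))) := by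
    intro k hk
    rw [ym k (by omega)]
    by_cases h0 : k = 0
    · subst h0
      rw [if_pos rfl, if_neg (by omega), zero_add, zero_add, ym 1 hn, y0]
      exact turn_first (hstp 0 (by omega))
    · obtain ⟨i, rfl⟩ : ∃ i, k = i + 1 := ⟨k - 1, by omega⟩
      rw [if_neg h0, Nat.add_sub_cancel, ym i (by omega)]
      by_cases h1 : i + 1 = n
      · rw [if_pos h1, add_zero]
        subst h1
        rw [yl]
        exact turn_last (hstp i (by omega))
      · rw [if_neg h1, ym (i + 2) (by omega)]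
        exact turn_mid (hstp i (by omega)) (hstp (i + 1) (by omega))
  have he : ∀ j, j < n → |(e j : ℝ)| ≤ 1 := by
    intro j hj
    rcases stp_e (hstp j hj) with h | h <;> rw [h] <;> norm_num
  have hm : ∀ k, k < n + 1 →
      |(if k = 0 then 0 else (e (k - 1) : ℝ)) + (if k = n then 0 else (e k : ℝ))| ≤ 2 := by
    intro k hk
    have h1 : |(if k = 0 then 0 else (e (k - 1) : ℝ))| ≤ 1 := by
      split_ifs with h
      · norm_num
      · exact he _ (by omega)
    have h2 : |(if k = n then 0 else (e k : ℝ))| ≤ 1 := by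
      split_ifs with h
      · norm_num
      · exact he _ (by omega)
    refine (abs_add_le _ _).trans ?_
    linarith
  have hpne : ∀ i j, i ≤ n → j ≤ n → i ≠ j → pos (g i) ≠ pos (g j) := by
    intro i j hi hj hij h
    rw [pos_eq, pos_eq] at h
    apply hip i j hi hj hij
    have h1 := congrArg Complex.re h
    have h2 := congrArg Complex.im h
    simp only [cc] at h1 h2
    exact Prod.ext (by exact_mod_cast h1) (by exact_mod_cast h2)
  have H := hopf (y := y) (n := n + 1) ?_ ?_ ?_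
  · rw [← H, Finset.sum_congr rfl fun k hk => ht k (Finset.mem_range.1 hk), ← Finset.mul_sum,
      Finset.sum_add_distrib, Finset.sum_range_succ', Finset.sum_range_succ (fun k =>
        if k = n then (0 : ℝ) else (e k : ℝ)), if_pos rfl, if_pos rfl, add_zero, add_zero]
    have h1 : ∑ k ∈ Finset.range n, (if k + 1 = 0 then 0 else (e (k + 1 - 1) : ℝ)) =
        ∑ k ∈ Finset.range n, (e k : ℝ) :=
      Finset.sum_congr rfl fun k _ => by rw [if_neg (by omega), Nat.add_sub_cancel]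
    have h2 : ∑ k ∈ Finset.range n, (if k = n then 0 else (e k : ℝ)) =
        ∑ k ∈ Finset.range n, (e k : ℝ) :=
      Finset.sum_congr rfl fun k hk => by
        rw [if_neg (by have := Finset.mem_range.1 hk; omega)]
    rw [h1, h2]
    push_cast
    ring
  · intro k l hkl hl
    have hl' : (l = n + 1) ∨ ∃ j, l = j + 1 ∧ 1 ≤ j ∧ j < n := by
      rcases Nat.lt_or_ge l (n + 1) with h | h
      · exact Or.inr ⟨l - 1, by omega, by omega, by omega⟩
      · exact Or.inl (by omega)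
    have hk' : k = 0 ∨ ∃ i, k = i + 1 ∧ i < n := by
      rcases Nat.eq_zero_or_pos k with h | h
      · exact Or.inl h
      · exact Or.inr ⟨k - 1, by omega, by omega⟩
    have hS : segment ℝ (y 0) (y (0 + 1)) =
        segment ℝ (cc (ip (g 0))) (cc (ip (g 0)) + ((-(1 / 8) : ℝ) : ℂ) * dg (g 0).2) := by
      rw [y0, ym 0 (by omega), segment_symm, pos_eq, sub_eq_add_neg]
      push_cast
      ring_nf
    have hE : segment ℝ (y (n + 1)) (y (n + 1 + 1)) =
        segment ℝ (cc (ip (g n))) (cc (ip (g n)) + ((1 / 4 : ℝ) : ℂ) * dg (g n).2) := by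
      rw [yl, ym n le_rfl, pos_eq]
    have hA : ∀ j, j < n → segment ℝ (y (j + 1)) (y (j + 1 + 1)) =
        segment ℝ (cc (ip (g j))) (cc (ip (g (j + 1)))) := by
      intro j hj
      rw [ym j (by omega), ym (j + 1) (by omega), pos_eq, pos_eq]
    rcases hl' with rfl | ⟨j, rfl, hj1, hj⟩ <;> rcases hk' with rfl | ⟨i, rfl, hi⟩
    · rw [hS, hE]
      exact diag_diag (by norm_num [abs_of_nonneg, abs_of_nonpos]) (hip _ _ (by omega) (by omega) (by omega))
    · rw [hE, hA i hi]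
      exact diag_seg (by norm_num [abs_of_nonneg]) (adj_of (hstp i hi))
        (hip _ _ (by omega) (by omega) (by omega)) (hip _ _ (by omega) (by omega) (by omega))
    · rw [hS, hA j hj]
      exact (diag_seg (by norm_num [abs_of_nonneg, abs_of_nonpos]) (adj_of (hstp j hj))
        (hip _ _ (by omega) (by omega) (by omega)) (hip _ _ (by omega) (by omega) (by omega))).symm
    · rw [hA j hj, hA i hi]
      exact seg_seg (adj_of (hstp j hj)) (adj_of (hstp i hi))
        (hip _ _ (by omega) (by omega) (by omega)) (hip _ _ (by omega) (by omega) (by omega))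
        (hip _ _ (by omega) (by omega) (by omega)) (hip _ _ (by omega) (by omega) (by omega))
  · intro k hk
    rcases Nat.eq_zero_or_pos k with rfl | h
    · rw [y0, ym 0 (by omega)]
      intro h
      have h1 : ((1 / 8 : ℝ) : ℂ) * dg (g 0).2 = 0 := by linear_combination h
      exact mul_ne_zero (by norm_num) (dg_ne _) h1
    · obtain ⟨i, rfl⟩ : ∃ i, k = i + 1 := ⟨k - 1, by omega⟩
      rw [ym i (by omega)]
      by_cases h1 : i = n
      · subst h1
        rw [yl]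
        intro h
        have h1 : ((1 / 4 : ℝ) : ℂ) * dg (g i).2 = 0 := by linear_combination h
        exact mul_ne_zero (by norm_num) (dg_ne _) h1
      · rw [ym (i + 1) (by omega)]
        exact hpne _ _ (by omega) (by omega) (by omega)
  · intro k hk h
    rw [ht k hk] at h
    have h1 := (abs_le.1 (hm k hk)).2
    nlinarith

/-- **JOB TURN** -/
theorem turn : S_TURN := fun g e n hn hW => turn_core g e n hn hW

end Pool.Agent.Q65.SR
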